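import Pool.Agent.Helper14.GBX.Main

/-! One-dimensional CW complexes are topological graphs. -/

set_option autoImplicit false

universe u v w

open Topology Set Metric

namespace Pool.Agent.Helper14.GBX

variable {X : Type u} [TopologicalSpace X] [T2Space X] (Γ : Set X) [CW : Topology.CWComplex Γ]

/-- clamping to `[-1, 1]`, as a point of `Fin 1 → ℝ` -/
def clv (t : ℝ) : Fin 1 → ℝ := fun _ => max (-1) (min t 1)

theorem continuous_clv : Continuous clv := by
  unfold clv
  fun_prop

theorem norm_fin_one (v : Fin 1 → ℝ) : ‖v‖ = |v 0| := by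
  simp [Pi.norm_def]

theorem norm_clv_le (t : ℝ) : ‖clv t‖ ≤ 1 := by
  rw [norm_fin_one, clv, abs_le]
  exact ⟨le_max_left _ _, max_le (by norm_num) (min_le_right _ _)⟩

theorem clv_of_le {t : ℝ} (h : |t| ≤ 1) : clv t = fun _ => t := by
  rw [abs_le] at h
  funext i
  rw [clv, min_eq_left h.2, max_eq_right h.1]

theorem clv_mem_closedBall (t : ℝ) : clv t ∈ closedBall (0 : Fin 1 → ℝ) 1 := by
  rw [mem_closedBall_zero_iff]
  exact norm_clv_le t

theorem clv_mem_ball {t : ℝ} (h : |t| < 1) : clv t ∈ ball (0 : Fin 1 → ℝ) 1 := by
  rw [mem_ball_zero_iff, clv_of_le h.le, norm_fin_one]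
  exact h

theorem clv_mem_sphere {t : ℝ} (h : t = 1 ∨ t = -1) : clv t ∈ sphere (0 : Fin 1 → ℝ) 1 := by
  rw [mem_sphere_zero_iff_norm, clv_of_le (by rcases h with h | h <;> simp [h]), norm_fin_one]
  rcases h with h | h <;> simp [h]

/-- the topological graph underlying a one-dimensional CW complex -/
noncomputable def cwGraph (hdim : ∀ k : ℕ, 2 ≤ k → IsEmpty (Topology.RelCWComplex.cell Γ k)) :
    GraphData Γ where
  E := Topology.RelCWComplex.cell Γ 1
  chi e := ⟨fun t => ⟨Topology.RelCWComplex.map 1 e (clv t),
      Topology.RelCWComplex.closedCell_subset_complex 1 e ⟨clv t, clv_mem_closedBall t, rfl⟩⟩, by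
    apply Continuous.subtype_mk
    exact (Topology.RelCWComplex.continuousOn 1 e).comp_continuous continuous_clv
      clv_mem_closedBall⟩
  clamp_right e t ht := by
    apply Subtype.ext
    show Topology.RelCWComplex.map 1 e (clv t) = Topology.RelCWComplex.map 1 e (clv 1)
    congr 1
    funext i
    simp [clv, min_eq_right ht]
  clamp_left e t ht := by
    apply Subtype.ext
    show Topology.RelCWComplex.map 1 e (clv t) = Topology.RelCWComplex.map 1 e (clv (-1))
    congr 1
    funext i
    rw [clv, clv, min_eq_left (by linarith), max_eq_left ht, min_eq_left (by norm_num), max_self]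
  inj e e' t t' ht ht' h := by
    have h0 : Topology.RelCWComplex.map 1 e (clv t) = Topology.RelCWComplex.map 1 e' (clv t') :=
      congrArg Subtype.val h
    have h1 : e = e' := by
      by_contra hne
      have h2 := Topology.RelCWComplex.disjoint_openCell_of_ne (C := Γ) (n := 1) (m := 1)
        (i := e) (j := e') (by
          intro heq
          apply hne
          exact eq_of_heq (Sigma.mk.inj_iff.1 heq).2)
      rw [Set.disjoint_left] at h2
      exact h2 ⟨clv t, clv_mem_ball ht, rfl⟩ ⟨clv t', clv_mem_ball ht', h0.symm⟩
    subst h1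
    refine ⟨rfl, ?_⟩
    have h3 := (Topology.RelCWComplex.map 1 e).injOn
      (by rw [Topology.RelCWComplex.source_eq]; exact clv_mem_ball ht)
      (by rw [Topology.RelCWComplex.source_eq]; exact clv_mem_ball ht') h0
    rw [clv_of_le ht.le, clv_of_le ht'.le] at h3
    exact congrFun h3 0
  vert e e' t t' ht ht' h := by
    have h0 : Topology.RelCWComplex.map 1 e (clv t) = Topology.RelCWComplex.map 1 e' (clv t') :=
      congrArg Subtype.val h
    obtain ⟨x, y, hxy⟩ := Topology.CWComplex.exists_cellFrontier_one_eq (C := Γ) e'
    have h1 : Topology.RelCWComplex.map 1 e' (clv t') ∈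
        Topology.RelCWComplex.cellFrontier 1 e' := ⟨clv t', clv_mem_sphere ht', rfl⟩
    rw [hxy, Topology.RelCWComplex.closedCell_zero_eq_singleton,
      Topology.RelCWComplex.closedCell_zero_eq_singleton,
      ← Topology.RelCWComplex.openCell_zero_eq_singleton,
      ← Topology.RelCWComplex.openCell_zero_eq_singleton] at h1
    have h2 : Topology.RelCWComplex.map 1 e' (clv t') ∈ Topology.RelCWComplex.openCell 1 e :=
      ⟨clv t, clv_mem_ball ht, h0⟩
    rcases h1 with h1 | h1
    · have h3 := Topology.RelCWComplex.disjoint_openCell_of_ne (C := Γ) (n := 1) (m := 0)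
        (i := e) (j := x) (by
          intro heq
          exact one_ne_zero (Sigma.mk.inj_iff.1 heq).1)
      rw [Set.disjoint_left] at h3
      exact h3 h2 h1
    · have h3 := Topology.RelCWComplex.disjoint_openCell_of_ne (C := Γ) (n := 1) (m := 0)
        (i := e) (j := y) (by
          intro heq
          exact one_ne_zero (Sigma.mk.inj_iff.1 heq).1)
      rw [Set.disjoint_left] at h3
      exact h3 h2 h1
  weak A hA := by
    have hΓ : IsClosed Γ := Topology.RelCWComplex.isClosed (C := Γ)
    rw [hΓ.isClosedEmbedding_subtypeVal.isClosed_iff_image_isClosed]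
    apply Topology.CWComplex.isClosed_of_isClosed_inter_openCell_or_isClosed_inter_closedCell
      (C := Γ)
    · rintro _ ⟨a, _, rfl⟩
      exact a.2
    · intro n hn j
      right
      rcases Nat.lt_or_ge n 2 with hn2 | hn2
      · obtain rfl : n = 1 := by omega
        have hcont : Continuous (fun t : ℝ => Topology.RelCWComplex.map 1 j (clv t)) :=
          (Topology.RelCWComplex.continuousOn 1 j).comp_continuous continuous_clv
            clv_mem_closedBall
        have h1 : (Subtype.val '' A) ∩ Topology.RelCWComplex.closedCell 1 j =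
            (fun t : ℝ => Topology.RelCWComplex.map 1 j (clv t)) ''
              (Icc (-1) 1 ∩ ((⟨fun t => ⟨Topology.RelCWComplex.map 1 j (clv t),
      Topology.RelCWComplex.closedCell_subset_complex 1 j ⟨clv t, clv_mem_closedBall t, rfl⟩⟩, by
    apply Continuous.subtype_mk
    exact (Topology.RelCWComplex.continuousOn 1 j).comp_continuous continuous_clv
      clv_mem_closedBall⟩ : C(ℝ, Γ)) ⁻¹' A)) := by
          ext y
          constructor
          · rintro ⟨⟨a, ha, rfl⟩, ⟨v, hv, hva⟩⟩
            rw [mem_closedBall_zero_iff, norm_fin_one] at hv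
            have hv2 : clv (v 0) = v := by
              rw [clv_of_le hv]
              funext i
              rw [Subsingleton.elim i 0]
            refine ⟨v 0, ⟨abs_le.1 hv, ?_⟩, ?_⟩
            · show (⟨Topology.RelCWComplex.map 1 j (clv (v 0)), _⟩ : Γ) ∈ A
              have : (⟨Topology.RelCWComplex.map 1 j (clv (v 0)),
                  Topology.RelCWComplex.closedCell_subset_complex 1 j
                    ⟨clv (v 0), clv_mem_closedBall _, rfl⟩⟩ : Γ) = a := by
                apply Subtype.ext
                show Topology.RelCWComplex.map 1 j (clv (v 0)) = a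
                rw [hv2, hva]
              rw [this]
              exact ha
            · show Topology.RelCWComplex.map 1 j (clv (v 0)) = a
              rw [hv2, hva]
          · rintro ⟨t, ⟨_, ht⟩, rfl⟩
            exact ⟨⟨_, ht, rfl⟩, ⟨clv t, clv_mem_closedBall t, rfl⟩⟩
        rw [h1]
        apply IsCompact.isClosed
        apply IsCompact.image _ hcont
        exact isCompact_Icc.inter_right (hA j)
      · exact ((hdim n hn2).false j).elim

end Pool.Agent.Helper14.GBX
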