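import Pool.Agent.Helper14.GBX.Conf

/-! Stabilisation at a leaf, and for spaces homeomorphic to the line. -/

set_option autoImplicit false

universe u v w

open Topology Set

namespace Pool.Agent.Helper14.GBX

variable {Y : Type u} [TopologicalSpace Y]

/-- If the identity is isotopic through embeddings to a non-surjective map, one can add a
particle. -/
theorem isotopy_lemma [T2Space Y] (H : C(unitInterval × Y, Y))
    (hinj : ∀ s, Function.Injective (fun y => H (s, y))) (h0 : ∀ y, H (0, y) = y) (z : Y)
    (hz : ∀ y, H (1, y) ≠ z) (n : ℕ) : ∃ F : C(UC n Y, UC (n + 1) Y), PiInj F := by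
  let K : C(unitInterval × OC n Y, OC n Y) :=
    ⟨fun x => ⟨fun i => H (x.1, x.2.1 i), (hinj x.1).comp x.2.2⟩, by
      apply Continuous.subtype_mk
      apply continuous_pi
      intro i
      apply H.continuous.comp
      apply Continuous.prodMk continuous_fst
      exact (continuous_apply i).comp (continuous_subtype_val.comp continuous_snd)⟩
  let D : C(OC n Y, OC n Y) := K.comp ⟨fun f => (1, f), by fun_prop⟩
  apply section_lemma D (ContinuousMap.const _ z)
  · intro f i
    exact hz (f.1 i)
  · intro f τ
    rfl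
  · intro f τ
    rfl
  · apply ContinuousMap.Homotopy.symm
    refine ⟨K, ?_, ?_⟩
    · intro f
      apply Subtype.ext
      funext i
      exact h0 (f.1 i)
    · intro f
      rfl

/-- A leaf: an arm issuing from `a 0` which is the whole neighbourhood `rho < 1`. -/
structure LeafData (Y : Type u) [TopologicalSpace Y] where
  rho : C(Y, unitInterval)
  a : C(ℝ, Y)
  r : ∀ t, 0 ≤ t → t ≤ 1 → ((rho (a t) : unitInterval) : ℝ) = t
  cover : ∀ y, ((rho y : unitInterval) : ℝ) < 1 → a ((rho y : unitInterval) : ℝ) = y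

theorem LeafData.exists_piInj [T2Space Y] (L : LeafData Y) (n : ℕ) :
    ∃ F : C(UC n Y, UC (n + 1) Y), PiInj F := by
  classical
  let push : ℝ → ℝ → ℝ := fun s r => r + s * ((1 - r) / 2)
  let Hf : unitInterval × Y → Y := fun x =>
    if ((L.rho x.2 : unitInterval) : ℝ) < 1 then
      L.a (push (x.1 : ℝ) ((L.rho x.2 : unitInterval) : ℝ)) else x.2
  have hpush0 : ∀ s r : ℝ, 0 ≤ s → 0 ≤ r → r ≤ 1 → 0 ≤ push s r := by
    intro s r hs hr hr1
    show 0 ≤ r + s * ((1 - r) / 2)
    have : 0 ≤ s * ((1 - r) / 2) := mul_nonneg hs (by linarith)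
    linarith
  have hpush1 : ∀ s r : ℝ, 0 ≤ s → s ≤ 1 → r < 1 → push s r < 1 := by
    intro s r hs hs1 hr
    show r + s * ((1 - r) / 2) < 1
    nlinarith
  have hcont : Continuous Hf := by
    apply Continuous.if
    · intro x hx
      have h1 : x.2 ∈ frontier {y : Y | ((L.rho y : unitInterval) : ℝ) < 1} :=
        continuous_snd.frontier_preimage_subset _ hx
      have hopen : IsOpen {y : Y | ((L.rho y : unitInterval) : ℝ) < 1} :=
        isOpen_lt (continuous_subtype_val.comp L.rho.continuous) continuous_const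
      rw [hopen.frontier_eq] at h1
      have hcl : closure {y : Y | ((L.rho y : unitInterval) : ℝ) < 1} ⊆ L.a '' Icc 0 1 := by
        apply closure_minimal
        · intro y hy
          exact ⟨_, ⟨(L.rho y).2.1, (L.rho y).2.2⟩, L.cover y hy⟩
        · exact (isCompact_Icc.image L.a.continuous).isClosed
      obtain ⟨t, ht, hty⟩ := hcl h1.1
      have h2 : ((L.rho x.2 : unitInterval) : ℝ) = t := by rw [← hty]; exact L.r t ht.1 ht.2
      have h3 : t = 1 := by
        apply le_antisymm ht.2
        have h4 : ¬ ((L.rho x.2 : unitInterval) : ℝ) < 1 := h1.2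
        rw [h2] at h4
        exact not_lt.1 h4
      rw [h2, h3]
      show L.a (1 + _ * ((1 - 1) / 2)) = x.2
      rw [sub_self, zero_div, mul_zero, add_zero, ← h3, hty]
    · apply L.a.continuous.comp
      show Continuous fun x : unitInterval × Y => ((L.rho x.2 : unitInterval) : ℝ) +
        (x.1 : ℝ) * ((1 - ((L.rho x.2 : unitInterval) : ℝ)) / 2)
      fun_prop
    · exact continuous_snd
  have hrho : ∀ (s : unitInterval) (y : Y), ((L.rho y : unitInterval) : ℝ) < 1 →
      ((L.rho (Hf (s, y)) : unitInterval) : ℝ) = push s ((L.rho y : unitInterval) : ℝ) := by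
    intro s y hy
    show ((L.rho (if ((L.rho y : unitInterval) : ℝ) < 1 then _ else y) : unitInterval) : ℝ) = _
    rw [if_pos hy]
    exact L.r _ (hpush0 _ _ s.2.1 (L.rho y).2.1 hy.le) (hpush1 _ _ s.2.1 s.2.2 hy).le
  have hrho' : ∀ (s : unitInterval) (y : Y), ¬ ((L.rho y : unitInterval) : ℝ) < 1 →
      Hf (s, y) = y := by
    intro s y hy
    show (if ((L.rho y : unitInterval) : ℝ) < 1 then _ else y) = _
    rw [if_neg hy]
  apply isotopy_lemma ⟨Hf, hcont⟩ _ _ (L.a 0)
  · intro y hy
    have hy' : Hf (1, y) = L.a 0 := hy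
    have h0 : ((L.rho (L.a 0) : unitInterval) : ℝ) = 0 := L.r 0 le_rfl zero_le_one
    by_cases h : ((L.rho y : unitInterval) : ℝ) < 1
    · have h1 := hrho 1 y h
      rw [hy', h0] at h1
      have h2 : push ((1 : unitInterval) : ℝ) ((L.rho y : unitInterval) : ℝ) =
        ((L.rho y : unitInterval) : ℝ) + 1 * ((1 - ((L.rho y : unitInterval) : ℝ)) / 2) := rfl
      rw [h2] at h1
      have h3 := (L.rho y).2.1
      linarith
    · rw [hrho' 1 y h] at hy'
      rw [hy', h0] at h
      exact h zero_lt_one
  · intro s y y' hyy'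
    have hyy : Hf (s, y) = Hf (s, y') := hyy'
    have hs0 := s.2.1
    have hs1 := s.2.2
    by_cases h : ((L.rho y : unitInterval) : ℝ) < 1
    · by_cases h' : ((L.rho y' : unitInterval) : ℝ) < 1
      · have h1 := hrho s y h
        have h2 := hrho s y' h'
        rw [hyy, h2] at h1
        have h3 : ((L.rho y' : unitInterval) : ℝ) +
            (s : ℝ) * ((1 - ((L.rho y' : unitInterval) : ℝ)) / 2) =
            ((L.rho y : unitInterval) : ℝ) +
            (s : ℝ) * ((1 - ((L.rho y : unitInterval) : ℝ)) / 2) := h1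
        have h4 : (1 - (s : ℝ) / 2) * (((L.rho y' : unitInterval) : ℝ) -
            ((L.rho y : unitInterval) : ℝ)) = 0 := by linarith
        have h5 : (1 - (s : ℝ) / 2) ≠ 0 := by linarith
        have h6 := (mul_eq_zero.1 h4).resolve_left h5
        rw [← L.cover y h, ← L.cover y' h']
        congr 1
        linarith
      · exfalso
        have h1 := hrho s y h
        rw [hyy, hrho' s y' h'] at h1
        exact h' (by rw [h1]; exact hpush1 _ _ hs0 hs1 h)
    · by_cases h' : ((L.rho y' : unitInterval) : ℝ) < 1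
      · exfalso
        have h1 := hrho s y' h'
        rw [← hyy, hrho' s y h] at h1
        exact h (by rw [h1]; exact hpush1 _ _ hs0 hs1 h')
      · rw [hrho' s y h, hrho' s y' h'] at hyy
        exact hyy
  · intro y
    show Hf (0, y) = y
    by_cases h : ((L.rho y : unitInterval) : ℝ) < 1
    · show (if ((L.rho y : unitInterval) : ℝ) < 1 then _ else y) = _
      rw [if_pos h]
      show L.a (((L.rho y : unitInterval) : ℝ) +
        ((0 : unitInterval) : ℝ) * ((1 - ((L.rho y : unitInterval) : ℝ)) / 2)) = y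
      rw [show ((0 : unitInterval) : ℝ) = 0 from rfl, zero_mul, add_zero]
      exact L.cover y h
    · exact hrho' 0 y h

theorem combo_lt {s A A' B B' : ℝ} (hs0 : 0 ≤ s) (hs1 : s ≤ 1) (hA : A < A') (hB : B < B') :
    (1 - s) * A + s * B < (1 - s) * A' + s * B' := by
  rcases eq_or_lt_of_le hs0 with h | h
  · rw [← h]; linarith
  · have h1 : 0 < s * (B' - B) := mul_pos h (by linarith)
    have h2 : 0 ≤ (1 - s) * (A' - A) := mul_nonneg (by linarith) (by linarith)
    nlinarith

/-- spaces homeomorphic to the line -/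
theorem line_exists_piInj [T2Space Y] (h : Y ≃ₜ ℝ) (n : ℕ) :
    ∃ F : C(UC n Y, UC (n + 1) Y), PiInj F := by
  let Hf : unitInterval × Y → Y := fun x =>
    h.symm ((1 - (x.1 : ℝ)) * h x.2 + (x.1 : ℝ) * Real.arctan (h x.2))
  have hcont : Continuous Hf := by
    apply h.symm.continuous.comp
    have h1 : Continuous (fun x : unitInterval × Y => h x.2) := h.continuous.comp continuous_snd
    have h2 : Continuous (fun x : unitInterval × Y => Real.arctan (h x.2)) :=
      Real.continuous_arctan.comp h1
    fun_prop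
  apply isotopy_lemma ⟨Hf, hcont⟩ _ _ (h.symm (Real.pi / 2))
  · intro y hy
    have hy' : h.symm ((1 - ((1 : unitInterval) : ℝ)) * h y +
      ((1 : unitInterval) : ℝ) * Real.arctan (h y)) = h.symm (Real.pi / 2) := hy
    have h1 := h.symm.injective hy'
    rw [show ((1 : unitInterval) : ℝ) = 1 from rfl] at h1
    have h2 := Real.arctan_lt_pi_div_two (h y)
    linarith
  · intro s y y' hyy'
    have hyy := h.symm.injective hyy'
    have hs0 := s.2.1
    have hs1 := s.2.2
    apply h.injective
    rcases lt_trichotomy (h y) (h y') with hlt | heq | hlt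
    · exact absurd hyy (combo_lt hs0 hs1 hlt (Real.arctan_strictMono hlt)).ne
    · exact heq
    · exact absurd hyy (combo_lt hs0 hs1 hlt (Real.arctan_strictMono hlt)).ne'
  · intro y
    show h.symm ((1 - ((0 : unitInterval) : ℝ)) * h y +
      ((0 : unitInterval) : ℝ) * Real.arctan (h y)) = y
    rw [show ((0 : unitInterval) : ℝ) = 0 from rfl]
    simp

end Pool.Agent.Helper14.GBX
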