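import Pool.Agent.Helper14.GBX.Conf

/-! Path connectedness of unordered configuration spaces of path connected spaces containing an
open arc. -/

set_option autoImplicit false

universe u v w

open Topology Set

namespace Pool.Agent.Helper14.GBX

variable {Y : Type u} [TopologicalSpace Y]

/-- An open arc together with its closure. -/
structure ArcData (Y : Type u) [TopologicalSpace Y] where
  c : C(ℝ, Y)
  inj : ∀ s t, |s| < 1 → |t| < 1 → c s = c t → s = t
  endp : ∀ s t, |s| < 1 → (t = 1 ∨ t = -1) → c s ≠ c t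
  isOpen : IsOpen (c '' Ioo (-1) 1)

/-- move one particle -/
def upd {n : ℕ} (f : OC n Y) (i : Fin n) (z : Y) (hz : ∀ j, j ≠ i → f.1 j ≠ z) : OC n Y :=
  ⟨Function.update f.1 i z, by
    intro a b hab
    by_cases ha : a = i
    · by_cases hb : b = i
      · rw [ha, hb]
      · subst ha
        rw [Function.update_self, Function.update_of_ne hb] at hab
        exact absurd hab.symm (hz b hb)
    · by_cases hb : b = i
      · subst hb
        rw [Function.update_self, Function.update_of_ne ha] at hab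
        exact absurd hab (hz a ha)
      · rw [Function.update_of_ne hb, Function.update_of_ne ha] at hab
        exact f.2 hab⟩

theorem joined_upd {n : ℕ} (f : OC n Y) (i : Fin n) (z : Y) (hz : ∀ j, j ≠ i → f.1 j ≠ z)
    (hj : JoinedIn {y | ∀ j, j ≠ i → f.1 j ≠ y} (f.1 i) z) : Joined f (upd f i z hz) := by
  obtain ⟨p, hp⟩ := hj
  refine ⟨⟨⟨fun t => upd f i (p t) (hp t), ?_⟩, ?_, ?_⟩⟩
  · apply Continuous.subtype_mk
    apply continuous_pi
    intro j
    by_cases hji : j = i
    · subst hji
      simp only [Function.update_self]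
      exact p.continuous
    · simp only [Function.update_of_ne hji]
      exact continuous_const
  · apply Subtype.ext
    show Function.update f.1 i (p 0) = f.1
    rw [p.source, Function.update_eq_self]
  · apply Subtype.ext
    show Function.update f.1 i (p 1) = Function.update f.1 i z
    rw [p.target]

namespace ArcData

variable (A : ArcData Y)

/-- the open arc -/
def U : Set Y := A.c '' Ioo (-1) 1

theorem mem_U {t : ℝ} (ht : |t| < 1) : A.c t ∈ A.U := ⟨t, abs_lt.1 ht, rfl⟩

theorem end_notMem_U {t : ℝ} (ht : t = 1 ∨ t = -1) : A.c t ∉ A.U := by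
  rintro ⟨s, hs, hst⟩
  exact A.endp s t (abs_lt.2 hs) ht hst

/-- free up a particle outside the arc -/
theorem step [T2Space Y] [PathConnectedSpace Y] {n : ℕ} (f : OC n Y) (hf : ∃ i, f.1 i ∉ A.U) :
    ∃ i, f.1 i ∉ A.U ∧ ∃ z, z ∈ A.U ∧ ∃ _hz : ∀ j, j ≠ i → f.1 j ≠ z,
      JoinedIn {y | ∀ j, j ≠ i → f.1 j ≠ y} (f.1 i) z := by
  classical
  obtain ⟨i₁, hi₁⟩ := hf
  let γ : Path (A.c 0) (f.1 i₁) := PathConnectedSpace.somePath _ _
  -- first hitting time of an outside particle
  let Q : Set Y := {y | y ∉ A.U ∧ ∃ i, f.1 i = y}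
  have hQfin : Q.Finite := (Set.finite_range f.1).subset (fun y hy => hy.2)
  have hQcl : IsClosed Q := hQfin.isClosed
  have hS1 : IsCompact (γ ⁻¹' Q) := (hQcl.preimage γ.continuous).isCompact
  have hS1n : (γ ⁻¹' Q).Nonempty := ⟨1, by
    show γ 1 ∈ Q
    rw [γ.target]
    exact ⟨hi₁, i₁, rfl⟩⟩
  obtain ⟨t₁, ht₁, hmin⟩ := hS1.exists_isLeast hS1n
  obtain ⟨hout, i, hi⟩ : γ t₁ ∉ A.U ∧ ∃ i, f.1 i = γ t₁ := ht₁
  -- last time in the closed arc
  have hKcl : IsClosed (A.c '' Icc (-1) 1) := (isCompact_Icc.image A.c.continuous).isClosed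
  let S2 : Set unitInterval := Iic t₁ ∩ γ ⁻¹' (A.c '' Icc (-1) 1)
  have hS2 : IsCompact S2 := (isClosed_Iic.inter (hKcl.preimage γ.continuous)).isCompact
  have hS2n : S2.Nonempty := ⟨0, t₁.2.1, by
    show γ 0 ∈ A.c '' Icc (-1) 1
    rw [γ.source]
    exact ⟨0, by constructor <;> norm_num, rfl⟩⟩
  obtain ⟨t₀, ht₀, hmax⟩ := hS2.exists_isGreatest hS2n
  have ht01 : t₀ ≤ t₁ := ht₀.1
  have hnotU : γ t₀ ∉ A.U := by
    intro hU
    have hne : t₀ ≠ t₁ := fun h => hout (h ▸ hU)
    have hlt : t₀ < t₁ := lt_of_le_of_ne ht01 hne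
    have hopen : IsOpen (γ ⁻¹' A.U) := A.isOpen.preimage γ.continuous
    have hnhds : γ ⁻¹' A.U ∈ 𝓝 t₀ := hopen.mem_nhds hU
    have h1 : ∀ᶠ t in 𝓝[>] t₀, t ∈ γ ⁻¹' A.U := mem_nhdsWithin_of_mem_nhds hnhds
    have h2 : ∀ᶠ t in 𝓝[>] t₀, t ∈ Ioo t₀ t₁ := Ioo_mem_nhdsGT hlt
    have : (𝓝[>] t₀).NeBot := by
      apply mem_closure_iff_nhdsWithin_neBot.1
      rw [closure_Ioi' ⟨t₁, hlt⟩]
      exact mem_Ici.2 le_rfl
    obtain ⟨t, h3, h4⟩ := (h1.and h2).exists
    have h5 : t ∈ S2 := ⟨h4.2.le, image_mono Ioo_subset_Icc_self h3⟩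
    exact absurd (hmax h5) (not_le.2 h4.1)
  obtain ⟨w, hw, hwt⟩ := ht₀.2
  have hw' : w = 1 ∨ w = -1 := by
    by_contra hcon
    push Not at hcon
    apply hnotU
    rw [← hwt]
    refine ⟨w, ⟨lt_of_le_of_ne hw.1 (Ne.symm hcon.2), lt_of_le_of_ne hw.2 hcon.1⟩, rfl⟩
  -- avoiding along `γ`
  have havoid1 : ∀ t ∈ Icc t₀ t₁, ∀ j, j ≠ i → f.1 j ≠ γ t := by
    intro t ht j hj hjt
    by_cases hjU : f.1 j ∈ A.U
    · have h1 : t ∈ S2 := ⟨ht.2, by
        show γ t ∈ A.c '' Icc (-1) 1
        rw [← hjt]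
        exact image_mono Ioo_subset_Icc_self hjU⟩
      have h2 : t = t₀ := le_antisymm (hmax h1) ht.1
      rw [h2] at hjt
      exact hnotU (hjt ▸ hjU)
    · have h1 : t ∈ γ ⁻¹' Q := ⟨by rw [← hjt]; exact hjU, j, hjt⟩
      have h2 : t = t₁ := le_antisymm ht.2 (hmin h1)
      rw [h2, ← hi] at hjt
      exact hj (f.2 hjt)
  -- a free parameter close to `w`
  obtain ⟨s₀, hs₀, hfree⟩ : ∃ s₀ : ℝ, |s₀| < 1 ∧ ∀ s ∈ segment ℝ w s₀, ∀ j, j ≠ i →
      f.1 j ∈ A.U → f.1 j ≠ A.c s := by
    have hpar : ∀ j, ∃ u : ℝ, f.1 j ∈ A.U → (|u| < 1 ∧ f.1 j = A.c u) := by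
      intro j
      by_cases h : f.1 j ∈ A.U
      · obtain ⟨u, hu, huj⟩ := h
        exact ⟨u, fun _ => ⟨abs_lt.2 hu, huj.symm⟩⟩
      · exact ⟨0, fun h' => absurd h' h⟩
    choose u hu using hpar
    -- `m < 1` bounds all `|u j|`
    obtain ⟨m, hm0, hm1, hm⟩ : ∃ m : ℝ, 0 ≤ m ∧ m < 1 ∧ ∀ j, f.1 j ∈ A.U → |u j| ≤ m := by
      let v : Fin n → ℝ := fun j => if f.1 j ∈ A.U then |u j| else 0
      have hv : ∀ j, v j < 1 := by
        intro j
        show (if f.1 j ∈ A.U then |u j| else 0) < 1
        split_ifs with h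
        · exact (hu j h).1
        · exact zero_lt_one
      by_cases hn : (Finset.univ : Finset (Fin n)).Nonempty
      · refine ⟨max 0 (Finset.univ.sup' hn v), le_max_left _ _, ?_, ?_⟩
        · rw [max_lt_iff]
          refine ⟨zero_lt_one, ?_⟩
          rw [Finset.sup'_lt_iff]
          exact fun j _ => hv j
        · intro j hj
          apply le_trans _ (le_max_right _ _)
          have h1 := Finset.le_sup' v (Finset.mem_univ j)
          have h2 : v j = |u j| := by
            show (if f.1 j ∈ A.U then |u j| else 0) = _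
            rw [if_pos hj]
          rw [h2] at h1
          exact h1
      · exact absurd ⟨i, Finset.mem_univ i⟩ hn
    refine ⟨w * ((1 + m) / 2), ?_, ?_⟩
    · rw [abs_mul]
      have : |w| = 1 := by rcases hw' with h | h <;> rw [h] <;> simp
      rw [this, one_mul, abs_of_nonneg (by linarith)]
      linarith
    · rintro s ⟨α, β, hα, hβ, hαβ, rfl⟩ j hj hjU heq
      obtain ⟨h1, h2⟩ := hu j hjU
      have hs : α • w + β • (w * ((1 + m) / 2)) = w * (α + β * ((1 + m) / 2)) := by
        simp only [smul_eq_mul]; ring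
      rw [hs] at heq
      have habsw : |w| = 1 := by rcases hw' with h | h <;> rw [h] <;> simp
      have hval : 0 ≤ α + β * ((1 + m) / 2) := by positivity
      have hval1 : α + β * ((1 + m) / 2) ≤ 1 := by nlinarith
      have hval2 : m < α + β * ((1 + m) / 2) := by nlinarith
      have habs : |w * (α + β * ((1 + m) / 2))| = α + β * ((1 + m) / 2) := by
        rw [abs_mul, habsw, one_mul, abs_of_nonneg hval]
      rcases eq_or_lt_of_le hval1 with h1' | h1'
      · rw [h1', mul_one] at heq
        exact A.end_notMem_U hw' (heq ▸ hjU)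
      · rw [h2] at heq
        have h3 := A.inj _ _ h1 (by rw [habs]; exact h1') heq
        have h4 := hm j hjU
        rw [h3, habs] at h4
        linarith
  have havoid2 : ∀ s ∈ segment ℝ w s₀, ∀ j, j ≠ i → f.1 j ≠ A.c s := by
    intro s hs j hj heq
    by_cases hjU : f.1 j ∈ A.U
    · exact hfree s hs j hj hjU heq
    · -- then `c s` is outside, so `s = w`
      have hsabs : |s| ≤ 1 := by
        obtain ⟨α, β, hα, hβ, hαβ, rfl⟩ := hs
        have habsw : |w| = 1 := by rcases hw' with h | h <;> rw [h] <;> simp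
        calc |α • w + β • s₀| ≤ |α • w| + |β • s₀| := abs_add_le _ _
          _ = α * |w| + β * |s₀| := by
            simp only [smul_eq_mul, abs_mul, abs_of_nonneg hα, abs_of_nonneg hβ]
          _ ≤ α * 1 + β * 1 := by
            rw [habsw]
            gcongr
          _ = 1 := by linarith
      rcases eq_or_lt_of_le hsabs with h1 | h1
      · have hsw : s = w := by
          obtain ⟨α, β, hα, hβ, hαβ, rfl⟩ := hs
          have hβ0 : β = 0 := by
            by_contra hne
            have hβpos : 0 < β := lt_of_le_of_ne hβ (Ne.symm hne)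
            have habsw : |w| = 1 := by rcases hw' with h | h <;> rw [h] <;> simp
            have : |α • w + β • s₀| < 1 := by
              calc |α • w + β • s₀| ≤ |α • w| + |β • s₀| := abs_add_le _ _
                _ = α * |w| + β * |s₀| := by
                  simp only [smul_eq_mul, abs_mul, abs_of_nonneg hα, abs_of_nonneg hβ]
                _ < α * 1 + β * 1 := by
                  rw [habsw]
                  have := mul_lt_mul_of_pos_left hs₀ hβpos
                  linarith
                _ = 1 := by linarith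
            linarith
          have hα1 : α = 1 := by linarith
          rw [hβ0, hα1]; simp
        rw [hsw, hwt] at heq
        exact havoid1 t₀ ⟨le_rfl, ht01⟩ j hj heq
      · exact hjU (heq ▸ A.mem_U h1)
  refine ⟨i, by rw [hi]; exact hout, A.c s₀, A.mem_U hs₀, ?_, ?_⟩
  · exact havoid2 s₀ (right_mem_segment ℝ w s₀)
  · have h1 : JoinedIn {y | ∀ j, j ≠ i → f.1 j ≠ y} (γ t₁) (γ t₀) := by
      have hpc : IsPathConnected (γ '' Icc t₀ t₁) := by
        apply IsPathConnected.image _ γ.continuous
        have : IsPathConnected (Icc t₀ t₁) := by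
          let φ : ℝ → unitInterval := fun x => Set.projIcc 0 1 zero_le_one x
          have hφ : Continuous φ := continuous_projIcc
          have himg : φ '' Icc (t₀ : ℝ) (t₁ : ℝ) = Icc t₀ t₁ := by
            ext x
            constructor
            · rintro ⟨y, hy, rfl⟩
              have hy01 : y ∈ Icc (0 : ℝ) 1 := ⟨t₀.2.1.trans hy.1, hy.2.trans t₁.2.2⟩
              have : φ y = ⟨y, hy01⟩ := Set.projIcc_of_mem _ hy01
              rw [this]
              exact ⟨hy.1, hy.2⟩
            · intro hx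
              exact ⟨x, ⟨hx.1, hx.2⟩, Set.projIcc_val zero_le_one x⟩
          rw [← himg]
          apply IsPathConnected.image _ hφ
          exact (convex_Icc _ _).isPathConnected ⟨(t₀ : ℝ), ⟨le_rfl, ht01⟩⟩
        exact this
      have := hpc.joinedIn (γ t₁) ⟨t₁, ⟨ht01, le_rfl⟩, rfl⟩ (γ t₀) ⟨t₀, ⟨le_rfl, ht01⟩, rfl⟩
      apply this.mono
      rintro _ ⟨t, ht, rfl⟩
      exact havoid1 t ht
    have h2 : JoinedIn {y | ∀ j, j ≠ i → f.1 j ≠ y} (A.c w) (A.c s₀) := by
      have hpc : IsPathConnected (A.c '' segment ℝ w s₀) := by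
        apply IsPathConnected.image _ A.c.continuous
        exact (convex_segment w s₀).isPathConnected ⟨w, left_mem_segment ℝ w s₀⟩
      have := hpc.joinedIn (A.c w) ⟨w, left_mem_segment ℝ w s₀, rfl⟩ (A.c s₀)
        ⟨s₀, right_mem_segment ℝ w s₀, rfl⟩
      apply this.mono
      rintro _ ⟨t, ht, rfl⟩
      exact havoid2 t ht
    rw [hi]
    rw [hwt] at h2
    exact h1.trans h2

/-- the standard configuration -/
noncomputable def stdPar (n : ℕ) (i : Fin n) : ℝ := ((i : ℕ) : ℝ) / n

theorem stdPar_abs {n : ℕ} (i : Fin n) : |stdPar n i| < 1 := by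
  have hn : (0 : ℝ) < n := by
    have : 0 < n := Nat.pos_of_ne_zero (by rintro rfl; exact i.elim0)
    exact_mod_cast this
  unfold stdPar
  rw [abs_of_nonneg (by positivity), div_lt_one hn]
  exact_mod_cast i.2

theorem stdPar_strictMono {n : ℕ} : StrictMono (stdPar n) := by
  intro i j hij
  have hn : (0 : ℝ) < n := by
    have : 0 < n := Nat.pos_of_ne_zero (by rintro rfl; exact i.elim0)
    exact_mod_cast this
  unfold stdPar
  rw [div_lt_div_iff_of_pos_right hn]
  exact_mod_cast hij

/-- the configuration with given increasing parameters -/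
def cfg {n : ℕ} (u : Fin n → ℝ) (hu : StrictMono u) (hu1 : ∀ i, |u i| < 1) : OC n Y :=
  ⟨fun i => A.c (u i), fun i j h => hu.injective (A.inj _ _ (hu1 i) (hu1 j) h)⟩

theorem joined_cfg {n : ℕ} (u w : Fin n → ℝ) (hu : StrictMono u) (hu1 : ∀ i, |u i| < 1)
    (hw : StrictMono w) (hw1 : ∀ i, |w i| < 1) :
    Joined (A.cfg u hu hu1) (A.cfg w hw hw1) := by
  have hmono : ∀ t : unitInterval, StrictMono (fun i => (1 - (t : ℝ)) * u i + (t : ℝ) * w i) := by
    intro t i j hij
    have h1 := hu hij
    have h2 := hw hij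
    have h3 := t.2.1
    have h4 := t.2.2
    show (1 - (t : ℝ)) * u i + (t : ℝ) * w i < (1 - (t : ℝ)) * u j + (t : ℝ) * w j
    rcases eq_or_lt_of_le h3 with h | h
    · rw [← h]; linarith
    · have h5 : 0 < (t : ℝ) * (w j - w i) := mul_pos h (by linarith)
      have h6 : 0 ≤ (1 - (t : ℝ)) * (u j - u i) := mul_nonneg (by linarith) (by linarith)
      nlinarith
  have habs : ∀ (t : unitInterval) i, |(1 - (t : ℝ)) * u i + (t : ℝ) * w i| < 1 := by
    intro t i
    have h1 := abs_lt.1 (hu1 i)
    have h2 := abs_lt.1 (hw1 i)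
    have h3 := t.2.1
    have h4 := t.2.2
    rw [abs_lt]
    constructor
    · have : (1 - (t : ℝ)) * (-1) + (t : ℝ) * (-1) < (1 - (t : ℝ)) * u i + (t : ℝ) * w i := by
        rcases eq_or_lt_of_le h3 with h | h
        · rw [← h]; linarith
        · have h5 : 0 < (t : ℝ) * (w i + 1) := mul_pos h (by linarith)
          have h6 : 0 ≤ (1 - (t : ℝ)) * (u i + 1) := mul_nonneg (by linarith) (by linarith)
          nlinarith
      linarith
    · have : (1 - (t : ℝ)) * u i + (t : ℝ) * w i < (1 - (t : ℝ)) * 1 + (t : ℝ) * 1 := by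
        rcases eq_or_lt_of_le h3 with h | h
        · rw [← h]; linarith
        · have h5 : 0 < (t : ℝ) * (1 - w i) := mul_pos h (by linarith)
          have h6 : 0 ≤ (1 - (t : ℝ)) * (1 - u i) := mul_nonneg (by linarith) (by linarith)
          nlinarith
      linarith
  refine ⟨⟨⟨fun t => A.cfg _ (hmono t) (habs t), ?_⟩, ?_, ?_⟩⟩
  · apply Continuous.subtype_mk
    apply continuous_pi
    intro i
    apply A.c.continuous.comp
    fun_prop
  · apply Subtype.ext
    funext i
    show A.c ((1 - ((0 : unitInterval) : ℝ)) * u i + ((0 : unitInterval) : ℝ) * w i) = A.c (u i)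
    rw [show ((0 : unitInterval) : ℝ) = 0 from rfl]
    simp
  · apply Subtype.ext
    funext i
    show A.c ((1 - ((1 : unitInterval) : ℝ)) * u i + ((1 : unitInterval) : ℝ) * w i) = A.c (w i)
    rw [show ((1 : unitInterval) : ℝ) = 1 from rfl]
    simp

/-- the standard configuration -/
noncomputable def std (n : ℕ) : OC n Y := A.cfg (stdPar n) stdPar_strictMono stdPar_abs

theorem joined_uc {n : ℕ} {f g : OC n Y} (h : Joined f g) : Joined (uc f) (uc g) := by
  obtain ⟨p⟩ := h
  exact ⟨p.map continuous_uc⟩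

theorem joined_std_of_mem {n : ℕ} (f : OC n Y) (hf : ∀ i, f.1 i ∈ A.U) :
    Joined (uc f) (uc (A.std n)) := by
  choose u hu huf using hf
  have huinj : Function.Injective u := by
    intro i j h
    apply f.2
    rw [← huf i, ← huf j, h]
  have hmono : StrictMono (u ∘ Tuple.sort u) :=
    (Tuple.monotone_sort u).strictMono_of_injective (huinj.comp (Tuple.sort u).injective)
  have h1 : relab f (Tuple.sort u) = A.cfg (u ∘ Tuple.sort u) hmono
      (fun i => abs_lt.2 (hu _)) := by
    apply Subtype.ext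
    funext i
    show f.1 (Tuple.sort u i) = A.c (u (Tuple.sort u i))
    rw [huf]
  rw [← uc_relab f (Tuple.sort u), h1]
  exact joined_uc (A.joined_cfg _ _ _ _ _ _)

theorem joined_std [T2Space Y] [PathConnectedSpace Y] {n : ℕ} (f : OC n Y) :
    Joined (uc f) (uc (A.std n)) := by
  classical
  induction hk : (Finset.univ.filter (fun i => f.1 i ∉ A.U)).card using Nat.strong_induction_on
    generalizing f with
  | _ k ih =>
    by_cases h : ∀ i, f.1 i ∈ A.U
    · exact A.joined_std_of_mem f h
    · push Not at h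
      obtain ⟨i, hi, z, hz, hz', hj⟩ := A.step f h
      have h1 := joined_uc (joined_upd f i z hz' hj)
      refine h1.trans (ih _ ?_ (upd f i z hz') rfl)
      rw [← hk]
      apply Finset.card_lt_card
      refine ⟨?_, ?_⟩
      · intro j hj'
        simp only [Finset.mem_filter, Finset.mem_univ, true_and] at hj' ⊢
        by_cases hji : j = i
        · rw [hji]; exact hi
        · have : (upd f i z hz').1 j = f.1 j := Function.update_of_ne hji _ _
          rw [this] at hj'
          exact hj'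
      · intro hsub
        have h2 := hsub (Finset.mem_filter.2 ⟨Finset.mem_univ i, hi⟩)
        simp only [Finset.mem_filter, Finset.mem_univ, true_and] at h2
        have : (upd f i z hz').1 i = z := Function.update_self _ _ _
        rw [this] at h2
        exact h2 hz

include A in
theorem pathConnectedSpace [T2Space Y] [PathConnectedSpace Y] (n : ℕ) :
    PathConnectedSpace (UC n Y) where
  nonempty := ⟨uc (A.std n)⟩
  joined := by
    intro x y
    obtain ⟨f, rfl⟩ := Quot.exists_rep x
    obtain ⟨g, rfl⟩ := Quot.exists_rep y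
    exact (A.joined_std f).trans (A.joined_std g).symm

end ArcData

end Pool.Agent.Helper14.GBX
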