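import Pool.Agent.Helper14.GBX.TwoReg

/-! The main theorem for topological graphs. -/

set_option autoImplicit false

universe u v w

open Topology Set

namespace Pool.Agent.Helper14.GBX

theorem PiInj.of_subsingleton {A : Type u} {B : Type v} [TopologicalSpace A] [TopologicalSpace B]
    [Subsingleton A] (f : C(A, B)) : PiInj f := by
  intro a γ _
  have : γ = Path.refl a := by
    ext t
    exact Subsingleton.elim _ _
  rw [this]

theorem subsingleton_UC_zero (Y : Type u) : Subsingleton (UC 0 Y) := by
  constructor
  intro x y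
  obtain ⟨f, rfl⟩ := Quot.exists_rep x
  obtain ⟨g, rfl⟩ := Quot.exists_rep y
  congr 1
  apply Subtype.ext
  funext i
  exact i.elim0

theorem exists_iter {Y : Type u} [TopologicalSpace Y]
    (h : ∀ n, ∃ F : C(UC n Y, UC (n + 1) Y), PiInj F) {m n : ℕ} (hmn : m ≤ n) :
    ∃ F : C(UC m Y, UC n Y), PiInj F := by
  induction n, hmn using Nat.le_induction with
  | base => exact ⟨ContinuousMap.id _, PiInj.id⟩
  | succ k _ ih =>
    obtain ⟨F, hF⟩ := ih
    obtain ⟨F', hF'⟩ := h k
    exact ⟨F'.comp F, hF'.comp hF⟩

theorem exists_hom {A : Type u} {B : Type v} [TopologicalSpace A] [TopologicalSpace B] [PathConnectedSpace B]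
    (F : C(A, B)) (hF : PiInj F) (x : A) (y : B) :
    ∃ φ : FundamentalGroup A x →* FundamentalGroup B y, Function.Injective φ :=
  ⟨(FundamentalGroup.fundamentalGroupMulEquivOfPathConnected (F x) y).toMonoidHom.comp
    (FundamentalGroup.map F x),
    (FundamentalGroup.fundamentalGroupMulEquivOfPathConnected (F x) y).injective.comp
      (hF.injective x)⟩

namespace GraphData

variable {Y : Type u} [TopologicalSpace Y] (G : GraphData Y)

theorem exists_step [T2Space Y] [ConnectedSpace Y] (e0 : G.E) :
    (∀ n, ∃ F : C(UC n Y, UC (n + 1) Y), PiInj F) ∨ Nonempty (Y ≃ₜ T1) := by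
  classical
  by_cases hleaf : ∃ h : G.H, ∀ h', G.endp h' = G.endp h → h' = h
  · left
    obtain ⟨h, hh⟩ := hleaf
    intro n
    exact (G.leaf h hh).exists_piInj n
  · push Not at hleaf
    choose tau htau1 htau2 using hleaf
    by_cases hbr : ∃ h h'' : G.H, G.endp h'' = G.endp h ∧ h'' ≠ h ∧ h'' ≠ tau h
    · left
      obtain ⟨h, h'', h1, h2, h3⟩ := hbr
      intro n
      exact (G.branch h (tau h) h'' (htau2 h).symm h2.symm h3.symm (htau1 h) h1).exists_piInj n
    · push Not at hbr
      let P : G.Pairing :=
        { tau := tau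
          ne := htau2
          endp_tau := htau1
          only := fun h h' hh => by
            by_cases h1 : h' = h
            · exact Or.inl h1
            · exact Or.inr (hbr h h' hh h1) }
      rcases Nat.eq_zero_or_pos (MulAction.period P.nxt (e0, true)) with hN | hN
      · left
        obtain ⟨hY⟩ := P.homeo_line (e0, true) hN
        intro n
        exact line_exists_piInj hY.symm n
      · right
        obtain ⟨hY⟩ := P.homeo_circle (e0, true) hN
        exact ⟨hY.symm⟩

theorem exists_piInj [T2Space Y] [ConnectedSpace Y] (e0 : G.E) {m n : ℕ} (hmn : m ≤ n) :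
    ∃ F : C(UC m Y, UC n Y), PiInj F := by
  rcases G.exists_step e0 with h | h
  · exact exists_iter h hmn
  · obtain ⟨h⟩ := h
    have := G.pathConnectedSpace
    rcases Nat.eq_zero_or_pos m with rfl | hm
    · have h1 := subsingleton_UC_zero Y
      have h2 := (G.arc e0).pathConnectedSpace n
      obtain ⟨z⟩ := h2.nonempty
      exact ⟨ContinuousMap.const _ z, PiInj.of_subsingleton _⟩
    · obtain ⟨m', rfl⟩ := Nat.exists_eq_succ_of_ne_zero hm.ne'
      obtain ⟨n', rfl⟩ := Nat.exists_eq_succ_of_ne_zero (hm.trans_le hmn).ne'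
      exact circle_exists_piInj h m' n'

include G in
theorem main [T2Space Y] [ConnectedSpace Y] {m n : ℕ} (hn : 2 ≤ n) (hmn : m ≤ n)
    (x : UC m Y) (y : UC n Y) :
    ∃ φ : FundamentalGroup (UC m Y) x →* FundamentalGroup (UC n Y) y, Function.Injective φ := by
  rcases isEmpty_or_nonempty G.E with hE | hE
  · exfalso
    have hd : DiscreteTopology Y := by
      rw [discreteTopology_iff_forall_isClosed]
      intro A
      apply G.weak
      intro e
      exact hE.elim e
    have hs : Subsingleton Y := PreconnectedSpace.trivial_of_discrete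
    obtain ⟨f, rfl⟩ := Quot.exists_rep y
    have h1 : (⟨0, by omega⟩ : Fin n) = ⟨1, by omega⟩ := f.2 (Subsingleton.elim _ _)
    have h2 := congrArg Fin.val h1
    simp at h2
  · obtain ⟨e0⟩ := hE
    have := G.pathConnectedSpace
    have := (G.arc e0).pathConnectedSpace n
    obtain ⟨F, hF⟩ := G.exists_piInj e0 hmn
    exact exists_hom F hF x y

end GraphData

end Pool.Agent.Helper14.GBX
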